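import Pool.Agent.H48.CN.Weier

/-!
# The descent map of `y^2 = x^3 + a^2` at its rational point of order three

`(x, y) ↦ y + a` is a homomorphism to the nonzero elements modulo cubes.
-/

namespace Pool.Agent.helper5.CT

open WeierstrassCurve WeierstrassCurve.Affine H48.CN

variable {K : Type*} [Field K] [DecidableEq K]

/-- The curve `y^2 = x^3 + a^2`. -/
abbrev Ca (a : K) : WeierstrassCurve.Affine K := Wc 0 0 (a ^ 2)

omit [DecidableEq K] in
theorem Ca_eqn {a x y : K} : (Ca a).Equation x y ↔ y ^ 2 = x ^ 3 + a ^ 2 := by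
  rw [eqn_iff]
  constructor <;> intro h <;> linear_combination h

/-- The symmetric functions of three collinear points. -/
theorem add_rel' {a x₁ y₁ x₂ y₂ : K}
    (h₁ : (Ca a).Nonsingular x₁ y₁) (h₂ : (Ca a).Nonsingular x₂ y₂) (h : ¬(x₁ = x₂ ∧ y₁ = -y₂)) :
    ∃ (l m x₃ y₃ : K) (h₃ : (Ca a).Nonsingular x₃ y₃),
      (Point.some x₁ y₁ h₁ + Point.some x₂ y₂ h₂ = Point.some x₃ y₃ h₃) ∧
      y₁ = l * x₁ + m ∧ y₂ = l * x₂ + m ∧ y₃ = -(l * x₃ + m) ∧
      x₁ + x₂ + x₃ = l ^ 2 ∧ x₁ * x₂ + x₁ * x₃ + x₂ * x₃ = -2 * l * m ∧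
      x₁ * x₂ * x₃ = m ^ 2 - a ^ 2 := by
  obtain ⟨l, x₃, y₃, h₃, hP, r1, r2, r3, r4⟩ := add_rel h₁ h₂ h
  have e₁ := Ca_eqn.1 h₁.1
  refine ⟨l, y₁ - l * x₁, x₃, y₃, h₃, hP, by ring, by linear_combination r1, ?_, ?_, ?_, ?_⟩
  · rw [r4]; ring
  · rw [r3]; ring
  · rw [r3]; linear_combination r2 - l * r1
  · rw [r3]; linear_combination x₁ * r2 - x₁ * l * r1 - e₁

/-- Representative of the descent class. -/
def bval (a : K) : (Ca a).Point → K
  | .zero => 1
  | .some _ y _ => if y = -a then (2 * a) ^ 2 else y + a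

theorem bval_zero (a : K) : bval a (0 : (Ca a).Point) = 1 := rfl

theorem bval_some (a : K) {x y : K} (h : (Ca a).Nonsingular x y) :
    bval a (Point.some x y h) = if y = -a then (2 * a) ^ 2 else y + a := rfl

theorem bval_ne_zero {a : K} (h2 : (2 : K) ≠ 0) (ha : a ≠ 0) (P : (Ca a).Point) :
    bval a P ≠ 0 := by
  rcases P with _ | ⟨x, y, h⟩
  · simp [bval]
  · rw [bval_some]
    split_ifs with hy
    · exact pow_ne_zero _ (mul_ne_zero h2 ha)
    · intro h0; exact hy (by linear_combination h0)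

/-- The descent map is multiplicative up to cubes. -/
theorem bval_add {a : K} (h2 : (2 : K) ≠ 0) (ha : a ≠ 0) (P Q : (Ca a).Point) :
    ∃ t : K, t ≠ 0 ∧ bval a (P + Q) * t ^ 3 = bval a P * bval a Q := by
  have h2a : 2 * a ≠ 0 := mul_ne_zero h2 ha
  rcases P with _ | ⟨x₁, y₁, h₁⟩
  · refine ⟨1, one_ne_zero, ?_⟩
    change bval a ((0 : (Ca a).Point) + Q) * 1 ^ 3 = bval a (0 : (Ca a).Point) * bval a Q
    rw [zero_add, bval_zero]; ring
  rcases Q with _ | ⟨x₂, y₂, h₂⟩
  · refine ⟨1, one_ne_zero, ?_⟩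
    change bval a (Point.some x₁ y₁ h₁ + (0 : (Ca a).Point)) * 1 ^ 3 =
      bval a (Point.some x₁ y₁ h₁) * bval a (0 : (Ca a).Point)
    rw [add_zero, bval_zero]; ring
  have e₁ := Ca_eqn.1 h₁.1
  have e₂ := Ca_eqn.1 h₂.1
  by_cases h : x₁ = x₂ ∧ y₁ = -y₂
  · have : (Point.some x₁ y₁ h₁ : (Ca a).Point) + Point.some x₂ y₂ h₂ = 0 :=
      Point.add_of_Y_eq h.1 (by rw [negY_eq]; exact h.2)
    rw [this, bval_zero, bval_some, bval_some]
    by_cases hy1 : y₁ = -a
    · have hy2 : y₂ ≠ -a := by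
        intro hy2
        apply h2a
        linear_combination hy1 + hy2 - h.2
      refine ⟨2 * a, h2a, ?_⟩
      rw [if_pos hy1, if_neg hy2]
      have : y₂ = a := by linear_combination h.2 - hy1
      rw [this]; ring
    · by_cases hy2 : y₂ = -a
      · refine ⟨2 * a, h2a, ?_⟩
        rw [if_neg hy1, if_pos hy2]
        have : y₁ = a := by linear_combination h.2 - hy2
        rw [this]; ring
      · rw [if_neg hy1, if_neg hy2]
        have key : (y₁ + a) * (y₂ + a) = (-x₁) ^ 3 := by
          have : y₂ = -y₁ := by linear_combination h.2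
          rw [this]; linear_combination -e₁
        refine ⟨-x₁, ?_, ?_⟩
        · intro h0
          rw [h0] at key
          have : (y₁ + a) * (y₂ + a) = 0 := by rw [key]; ring
          rcases mul_eq_zero.1 this with h3 | h3
          · exact hy1 (by linear_combination h3)
          · exact hy2 (by linear_combination h3)
        · rw [key]; ring
  obtain ⟨l, m, x₃, y₃, h₃, hP, f1, f2, f3, s1, s2, s3⟩ := add_rel' h₁ h₂ h
  have e₃ := Ca_eqn.1 h₃.1
  rw [hP, bval_some, bval_some, bval_some]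
  have key : (y₁ + a) * (y₂ + a) * (a - y₃) = (m + a) ^ 3 := by
    rw [f1, f2, f3]
    linear_combination l ^ 3 * s3 + l ^ 2 * (m + a) * s2 + l * (m + a) ^ 2 * s1
  -- a point with `y = -a` or `y = a` has `x = 0`
  have x0 : ∀ {x y : K}, y ^ 2 = x ^ 3 + a ^ 2 → (y = a ∨ y = -a) → x = 0 := by
    intro x y e hy
    have : x ^ 3 = 0 := by
      rcases hy with hy | hy <;> rw [hy] at e <;> linear_combination -e
    exact pow_eq_zero_iff (three_ne_zero) |>.1 this
  by_cases hy1 : y₁ = -a
  · have hx1 := x0 e₁ (Or.inr hy1)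
    have hm : m = -a := by rw [hx1] at f1; linear_combination hy1 - f1
    by_cases hy2 : y₂ = -a
    · have hx2 := x0 e₂ (Or.inr hy2)
      have hl : l = 0 := by
        have : l * (2 * a) = 0 := by
          rw [hx1, hx2, hm] at s2; linear_combination -s2
        rcases mul_eq_zero.1 this with h3 | h3
        · exact h3
        · exact absurd h3 h2a
      have hy3 : y₃ = a := by rw [f3, hl, hm]; ring
      have hy3' : y₃ ≠ -a := by
        rw [hy3]; intro h3; apply h2a; linear_combination h3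
      rw [if_pos hy1, if_pos hy2, if_neg hy3', hy3]
      exact ⟨2 * a, h2a, by ring⟩
    · have hl : l ≠ 0 := by
        intro hl; apply hy2; rw [f2, hl, hm]; ring
      have hx2 : x₂ ≠ 0 := by
        intro hx2; apply hy2; rw [f2, hx2, hm]; ring
      have q2 : x₂ * x₃ = 2 * l * a := by
        rw [hx1, hm] at s2; linear_combination s2
      have hx3 : x₃ ≠ 0 := by
        intro hx3; rw [hx3] at q2
        have : l * (2 * a) = 0 := by linear_combination -q2
        exact (mul_ne_zero hl h2a) this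
      have hy3' : y₃ ≠ -a := by
        intro hy3
        exact hx3 (x0 e₃ (Or.inr hy3))
      rw [if_pos hy1, if_neg hy2, if_neg hy3']
      refine ⟨-x₂, neg_ne_zero.2 hx2, ?_⟩
      have hA : (2 * a) = x₂ * x₃ / l := by rw [eq_div_iff hl]; linear_combination -q2
      have hB : y₃ + a = -x₃ ^ 2 / l := by
        rw [eq_div_iff hl]
        have h5 : (y₃ + a) * (l * x₃) = -x₃ ^ 3 := by
          have : a - y₃ = l * x₃ := by rw [f3, hm]; ring
          rw [← this]; linear_combination -e₃
        apply mul_right_cancel₀ hx3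
        linear_combination h5
      have hC : y₂ + a = l * x₂ := by rw [f2, hm]; ring
      rw [hA, hB, hC]
      field_simp
  by_cases hy2 : y₂ = -a
  · have hx2 := x0 e₂ (Or.inr hy2)
    have hm : m = -a := by rw [hx2] at f2; linear_combination hy2 - f2
    have hl : l ≠ 0 := by
      intro hl; apply hy1; rw [f1, hl, hm]; ring
    have hx1 : x₁ ≠ 0 := by
      intro hx1; apply hy1; rw [f1, hx1, hm]; ring
    have q2 : x₁ * x₃ = 2 * l * a := by
      rw [hx2, hm] at s2; linear_combination s2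
    have hx3 : x₃ ≠ 0 := by
      intro hx3; rw [hx3] at q2
      have : l * (2 * a) = 0 := by linear_combination -q2
      exact (mul_ne_zero hl h2a) this
    have hy3' : y₃ ≠ -a := by
      intro hy3
      exact hx3 (x0 e₃ (Or.inr hy3))
    rw [if_neg hy1, if_pos hy2, if_neg hy3']
    refine ⟨-x₁, neg_ne_zero.2 hx1, ?_⟩
    have hA : (2 * a) = x₁ * x₃ / l := by rw [eq_div_iff hl]; linear_combination -q2
    have hB : y₃ + a = -x₃ ^ 2 / l := by
      rw [eq_div_iff hl]
      have h5 : (y₃ + a) * (l * x₃) = -x₃ ^ 3 := by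
        have : a - y₃ = l * x₃ := by rw [f3, hm]; ring
        rw [← this]; linear_combination -e₃
      apply mul_right_cancel₀ hx3
      linear_combination h5
    have hC : y₁ + a = l * x₁ := by rw [f1, hm]; ring
    rw [hA, hB, hC]
    field_simp
  have n1 : y₁ + a ≠ 0 := fun h0 => hy1 (by linear_combination h0)
  have n2 : y₂ + a ≠ 0 := fun h0 => hy2 (by linear_combination h0)
  by_cases hy3 : y₃ = -a
  · rw [if_neg hy1, if_neg hy2, if_pos hy3]
    have hx3 := x0 e₃ (Or.inr hy3)
    have hm : m = a := by rw [hx3] at f3; linear_combination f3 - hy3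
    refine ⟨1, one_ne_zero, ?_⟩
    apply mul_right_cancel₀ h2a
    rw [hy3, hm] at key
    linear_combination -key
  rw [if_neg hy1, if_neg hy2, if_neg hy3]
  by_cases hy3a : y₃ = a
  · have hx3 := x0 e₃ (Or.inl hy3a)
    have hm : m = -a := by rw [hx3] at f3; linear_combination f3 - hy3a
    have hC1 : y₁ + a = l * x₁ := by rw [f1, hm]; ring
    have hC2 : y₂ + a = l * x₂ := by rw [f2, hm]; ring
    have hl : l ≠ 0 := by rintro rfl; apply n1; rw [hC1]; ring
    have q2 : x₁ * x₂ = 2 * l * a := by rw [hx3, hm] at s2; linear_combination s2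
    refine ⟨l, hl, ?_⟩
    rw [hC1, hC2, hy3a]
    linear_combination -l ^ 2 * q2
  · have n3 : a - y₃ ≠ 0 := fun h0 => hy3a (by linear_combination -h0)
    have hma : m + a ≠ 0 := by
      intro h0
      rw [h0] at key
      have : (y₁ + a) * (y₂ + a) * (a - y₃) = 0 := by rw [key]; ring
      exact mul_ne_zero (mul_ne_zero n1 n2) n3 this
    have hx3 : x₃ ≠ 0 := by
      intro hx3
      rw [hx3] at e₃
      have : (y₃ - a) * (y₃ + a) = 0 := by linear_combination e₃
      rcases mul_eq_zero.1 this with h3 | h3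
      · exact hy3a (by linear_combination h3)
      · exact hy3 (by linear_combination h3)
    refine ⟨-(m + a) / x₃, div_ne_zero (neg_ne_zero.2 hma) hx3, ?_⟩
    have : (y₃ + a) * (a - y₃) = -x₃ ^ 3 := by linear_combination -e₃
    field_simp
    apply mul_right_cancel₀ n3
    linear_combination (-(m + a) ^ 3) * this - x₃ ^ 3 * key
    
end Pool.Agent.helper5.CT
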