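import Pool.Agent.helper5.CT.Iso

/-!
# Independence of four points through valuations of their descent classes
-/

namespace Pool.Agent.helper5.CT

open WeierstrassCurve WeierstrassCurve.Affine H48.CN

section abstract

variable {A : Type*} [AddCommGroup A] {T : A} (P : Fin 4 → A) (f : Fin 5 → A →+ ZMod 3)
  (M : Fin 5 → Fin 4 → ZMod 3) (t : Fin 5 → ZMod 3)

theorem abs_step (hP : ∀ j i, f j (P i) = M j i) (hT : ∀ j, f j T = t j)
    (hM : ∀ (c : Fin 4 → ZMod 3) (k : ZMod 3), (∀ j, ∑ i, c i * M j i = k * t j) →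
      c = 0 ∧ k = 0)
    {c : Fin 4 → ℤ} {Z : A} (hZ : Z = 0 ∨ Z = T ∨ Z = -T) (hc : ∑ i, c i • P i = Z) :
    (Z = 0 ∨ T = 0) ∧ ∀ i, (3 : ℤ) ∣ c i := by
  have key : ∀ k : ZMod 3, (∀ j, f j Z = k * t j) → (∀ i, (3 : ℤ) ∣ c i) ∧ k = 0 := by
    intro k hk
    obtain ⟨h1, h2⟩ := hM (fun i => (c i : ZMod 3)) k (by
      intro j
      rw [← hk j, ← hc, map_sum]
      refine Finset.sum_congr rfl fun i _ => ?_
      rw [map_zsmul, hP j i, zsmul_eq_mul])
    refine ⟨fun i => ?_, h2⟩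
    have := congrFun h1 i
    exact (ZMod.intCast_zmod_eq_zero_iff_dvd (c i) 3).1 this
  rcases hZ with h | h | h
  · refine ⟨Or.inl h, (key 0 ?_).1⟩
    intro j; rw [h, map_zero, zero_mul]
  · exfalso
    have := (key 1 (by intro j; rw [h, hT j, one_mul])).2
    exact one_ne_zero this
  · exfalso
    have := (key (-1) (by intro j; rw [h, map_neg, hT j]; ring)).2
    exact (neg_ne_zero.2 one_ne_zero) this

theorem abs_pow (hP : ∀ j i, f j (P i) = M j i) (hT : ∀ j, f j T = t j)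
    (hM : ∀ (c : Fin 4 → ZMod 3) (k : ZMod 3), (∀ j, ∑ i, c i * M j i = k * t j) →
      c = 0 ∧ k = 0) (hT0 : T ≠ 0)
    (htor : ∀ Z : A, (3 : ℤ) • Z = 0 → Z = 0 ∨ Z = T ∨ Z = -T) (k : ℕ) :
    ∀ c : Fin 4 → ℤ, (∑ i, c i • P i = 0 ∨ ∑ i, c i • P i = T ∨ ∑ i, c i • P i = -T) →
      ∀ i, (3 : ℤ) ^ k ∣ c i := by
  induction k with
  | zero => intro c _ i; simp
  | succ k ih =>
    intro c hc i
    obtain ⟨h0, h1⟩ := abs_step P f M t hP hT hM hc rfl
    have h0' : ∑ i, c i • P i = 0 := h0.resolve_right hT0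
    have h2 : ∀ i, c i = 3 * (c i / 3) := fun i => by have := h1 i; omega
    set d : Fin 4 → ℤ := fun i => c i / 3 with hd
    have h3 : (3 : ℤ) • (∑ i, d i • P i) = 0 := by
      rw [Finset.smul_sum, ← h0']
      refine Finset.sum_congr rfl fun i _ => ?_
      rw [smul_smul, ← h2 i]
    have h5 := ih d (htor _ h3) i
    rw [h2 i, pow_succ, mul_comm ((3 : ℤ) ^ k) 3]
    exact mul_dvd_mul_left 3 h5

theorem abs_indep (hP : ∀ j i, f j (P i) = M j i) (hT : ∀ j, f j T = t j)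
    (hM : ∀ (c : Fin 4 → ZMod 3) (k : ZMod 3), (∀ j, ∑ i, c i * M j i = k * t j) →
      c = 0 ∧ k = 0) (hT0 : T ≠ 0)
    (htor : ∀ Z : A, (3 : ℤ) • Z = 0 → Z = 0 ∨ Z = T ∨ Z = -T)
    (c : Fin 4 → ℤ) (hc : ∑ i, c i • P i = 0 ∨ ∑ i, c i • P i = T ∨ ∑ i, c i • P i = -T) :
    ∀ i, c i = 0 := by
  intro i
  by_contra hne
  have hk := abs_pow P f M t hP hT hM hT0 htor (c i).natAbs c hc i
  have h1 := Int.le_of_dvd (abs_pos.2 hne) ((dvd_abs _ _).2 hk)
  have h2 : (c i).natAbs < 3 ^ (c i).natAbs := Nat.lt_pow_self (by norm_num)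
  have h3 : ((c i).natAbs : ℤ) = |c i| := Int.natCast_natAbs _
  have h4 : ((3 ^ (c i).natAbs : ℕ) : ℤ) = 3 ^ (c i).natAbs := by push_cast; rfl
  omega

end abstract

/-- The valuation of the descent class, modulo three. -/
noncomputable def vb (p : ℕ) [Fact p.Prime] {a : ℚ} (ha : a ≠ 0) : (Ca a).Point →+ ZMod 3 where
  toFun P := ((padicValRat p (bval a P) : ℤ) : ZMod 3)
  map_zero' := by rw [bval_zero]; simp
  map_add' P Q := by
    obtain ⟨t, ht, h⟩ := bval_add two_ne_zero ha P Q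
    have nP := bval_ne_zero two_ne_zero ha P
    have nQ := bval_ne_zero two_ne_zero ha Q
    have nR := bval_ne_zero two_ne_zero ha (P + Q)
    have h' := congrArg (padicValRat p) h
    rw [padicValRat.mul nR (pow_ne_zero 3 ht), padicValRat.pow _, padicValRat.mul nP nQ] at h'
    have h2 := congrArg (Int.cast : ℤ → ZMod 3) h'
    push_cast at h2
    have h3 : ((3 : ℕ) : ZMod 3) = 0 := rfl
    have h4 : (3 : ZMod 3) = 0 := rfl
    rw [h4, zero_mul, add_zero] at h2
    exact h2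

theorem vb_apply (p : ℕ) [Fact p.Prime] {a : ℚ} (ha : a ≠ 0) (P : (Ca a).Point) :
    vb p ha P = ((padicValRat p (bval a P) : ℤ) : ZMod 3) := rfl

/-- The rational point of order three. -/
def Tpt {a : ℚ} (ha : a ≠ 0) : (Ca a).Point :=
  Point.some 0 a (nonsing_of (by ring) (Or.inl (mul_ne_zero two_ne_zero ha)))

theorem Tpt_ne {a : ℚ} (ha : a ≠ 0) : Tpt ha ≠ 0 := Point.some_ne_zero _

theorem xzero_cases {a : ℚ} (ha : a ≠ 0) {y : ℚ} (h : (Ca a).Nonsingular 0 y) :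
    Point.some 0 y h = Tpt ha ∨ Point.some 0 y h = -Tpt ha := by
  have e := Ca_eqn.1 h.1
  have : (y - a) * (y + a) = 0 := by linear_combination e
  rcases mul_eq_zero.1 this with h1 | h1
  · left
    unfold Tpt
    congr 1
    linear_combination h1
  · right
    unfold Tpt
    rw [Point.neg_some]
    congr 1
    rw [negY_eq]
    linear_combination h1

theorem torsion {a : ℚ} (ha : a ≠ 0) (hcub : ∀ x : ℚ, x ^ 3 ≠ -(4 * a ^ 2)) (Z : (Ca a).Point)
    (hZ : (3 : ℤ) • Z = 0) : Z = 0 ∨ Z = Tpt ha ∨ Z = -Tpt ha := by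
  rcases Z with _ | ⟨x, y, h⟩
  · left; rfl
  · right
    have h3 : (Point.some x y h + Point.some x y h : (Ca a).Point) = -Point.some x y h := by
      rw [eq_neg_iff_add_eq_zero, ← hZ]
      have : (3 : ℤ) = 1 + 1 + 1 := by norm_num
      rw [this, add_zsmul, add_zsmul, one_zsmul]
    have hy : y ≠ 0 := by
      intro hy
      have h2 : (Point.some x y h + Point.some x y h : (Ca a).Point) = 0 :=
        Point.add_of_Y_eq rfl (by rw [negY_eq, hy, neg_zero])
      rw [h2, eq_comm, neg_eq_zero] at h3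
      exact Point.some_ne_zero _ h3
    have hno : ¬(x = x ∧ y = -y) := by
      rintro ⟨-, h1⟩; apply hy; linarith
    obtain ⟨l, x₃, y₃, h₃, hP, r1, r2, r3, r4⟩ := add_rel h h hno
    rw [hP, Point.neg_some] at h3
    have hx3 : x₃ = x := by
      have := (Point.some.injEq _ _ _ _ _ _).mp h3
      exact this.1
    have e := Ca_eqn.1 h.1
    have hl : l ^ 2 = 3 * x := by rw [hx3] at r3; linear_combination -r3
    have q : x * (x ^ 3 + 4 * a ^ 2) = 0 := by
      have h9 : 3 * (x * (x ^ 3 + 4 * a ^ 2)) = 0 := by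
        linear_combination (l * (y + y) + 3 * x ^ 2) * r2 - 4 * y ^ 2 * hl - 12 * x * e
      linarith
    rcases mul_eq_zero.1 q with h0 | h0
    · subst h0
      exact xzero_cases ha h
    · exact absurd (by linear_combination h0) (hcub x)

/-- A point with prescribed descent class from an integral solution of
`A z₁^3 + B z₂^3 + C z₃^3 = 0`, `A B C = n t^3`. -/
theorem exists_pt {n t A B C z₁ z₂ z₃ : ℚ} (hn : n ≠ 0) (h4n : 4 * n ≠ 0) (ht : t ≠ 0)
    (hz1 : z₁ ≠ 0) (hz2 : z₂ ≠ 0) (hz3 : z₃ ≠ 0)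
    (h : A * z₁ ^ 3 + B * z₂ ^ 3 + C * z₃ ^ 3 = 0) (hABC : A * B * C = n * t ^ 3) :
    ∃ P : (Ca (4 * n)).Point, ∀ (p : ℕ) [Fact p.Prime],
      vb p h4n P = ((padicValRat p B - padicValRat p A : ℤ) : ZMod 3) := by
  have hnt : n * t ^ 3 ≠ 0 := mul_ne_zero hn (pow_ne_zero 3 ht)
  have hA : A ≠ 0 := by rintro rfl; apply hnt; rw [← hABC]; ring
  have hB : B ≠ 0 := by rintro rfl; apply hnt; rw [← hABC]; ring
  have hC : C ≠ 0 := by rintro rfl; apply hnt; rw [← hABC]; ring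
  obtain ⟨X, hX⟩ : ∃ X, X = -A * z₁ ^ 2 / (z₂ * z₃ * t) := ⟨_, rfl⟩
  obtain ⟨Y, hY⟩ : ∃ Y, Y = -B * z₂ ^ 2 / (z₁ * z₃ * t) := ⟨_, rfl⟩
  have hS : X + Y = C * z₃ ^ 2 / (z₁ * z₂ * t) := by
    rw [hX, hY]; field_simp; linear_combination -h
  have hX0 : X ≠ 0 := by
    rw [hX]; exact div_ne_zero (mul_ne_zero (neg_ne_zero.2 hA) (pow_ne_zero 2 hz1))
      (mul_ne_zero (mul_ne_zero hz2 hz3) ht)
  have hY0 : Y ≠ 0 := by
    rw [hY]; exact div_ne_zero (mul_ne_zero (neg_ne_zero.2 hB) (pow_ne_zero 2 hz2))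
      (mul_ne_zero (mul_ne_zero hz1 hz3) ht)
  have hS0 : X + Y ≠ 0 := by
    rw [hS]; exact div_ne_zero (mul_ne_zero hC (pow_ne_zero 2 hz3))
      (mul_ne_zero (mul_ne_zero hz1 hz2) ht)
  have hXY : X * Y * (X + Y) = n := by
    rw [hS, hX, hY]
    have : n = A * B * C / t ^ 3 := by rw [hABC]; field_simp
    rw [this]
    field_simp
  have e : (4 * n * (X - Y) / (X + Y)) ^ 2 = (-4 * n / (X + Y)) ^ 3 + 0 * (-4 * n / (X + Y)) ^ 2 +
      0 * (-4 * n / (X + Y)) + (4 * n) ^ 2 := by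
    field_simp
    linear_combination (-16 : ℚ) * n * hXY
  have hy : 4 * n * (X - Y) / (X + Y) + 4 * n = 2 ^ 3 * n * X / (X + Y) := by
    field_simp; ring
  have hb0 : 2 ^ 3 * n * X / (X + Y) ≠ 0 :=
    div_ne_zero (mul_ne_zero (mul_ne_zero (by norm_num) hn) hX0) hS0
  have hns : (Ca (4 * n)).Nonsingular (-4 * n / (X + Y)) (4 * n * (X - Y) / (X + Y)) := by
    apply nonsing_of e
    right
    have : -4 * n / (X + Y) ≠ 0 := div_ne_zero (mul_ne_zero (by norm_num) hn) hS0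
    have h3 : 3 * (-4 * n / (X + Y)) ^ 2 ≠ 0 := mul_ne_zero (by norm_num) (pow_ne_zero 2 this)
    intro h0; apply h3; linear_combination h0
  refine ⟨Point.some _ _ hns, ?_⟩
  intro p _
  rw [vb_apply, bval_some, if_neg (by
    intro h0; apply hb0; rw [← hy, h0]; ring), hy]
  have v1 : padicValRat p (2 ^ 3 * n * X / (X + Y)) =
      3 * padicValRat p 2 + padicValRat p n + padicValRat p X - padicValRat p (X + Y) := by
    rw [padicValRat.div (mul_ne_zero (mul_ne_zero (by norm_num) hn) hX0) hS0,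
      padicValRat.mul (mul_ne_zero (by norm_num) hn) hX0, padicValRat.mul (by norm_num) hn,
      padicValRat.pow _]
    push_cast; ring
  have v2 : padicValRat p n = padicValRat p X + padicValRat p Y + padicValRat p (X + Y) := by
    rw [← hXY, padicValRat.mul (mul_ne_zero hX0 hY0) hS0, padicValRat.mul hX0 hY0]
  have v3 : padicValRat p X = padicValRat p A + 2 * padicValRat p z₁ -
      (padicValRat p z₂ + padicValRat p z₃ + padicValRat p t) := by
    rw [hX, padicValRat.div (mul_ne_zero (neg_ne_zero.2 hA) (pow_ne_zero 2 hz1))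
      (mul_ne_zero (mul_ne_zero hz2 hz3) ht), padicValRat.mul (neg_ne_zero.2 hA)
      (pow_ne_zero 2 hz1), padicValRat.neg, padicValRat.pow _,
      padicValRat.mul (mul_ne_zero hz2 hz3) ht, padicValRat.mul hz2 hz3]
    push_cast; ring
  have v4 : padicValRat p Y = padicValRat p B + 2 * padicValRat p z₂ -
      (padicValRat p z₁ + padicValRat p z₃ + padicValRat p t) := by
    rw [hY, padicValRat.div (mul_ne_zero (neg_ne_zero.2 hB) (pow_ne_zero 2 hz2))
      (mul_ne_zero (mul_ne_zero hz1 hz3) ht), padicValRat.mul (neg_ne_zero.2 hB)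
      (pow_ne_zero 2 hz2), padicValRat.neg, padicValRat.pow _,
      padicValRat.mul (mul_ne_zero hz1 hz3) ht, padicValRat.mul hz1 hz3]
    push_cast; ring
  have v5 : padicValRat p (2 ^ 3 * n * X / (X + Y)) =
      padicValRat p B - padicValRat p A + 3 * (padicValRat p 2 + padicValRat p A +
        padicValRat p z₁ - padicValRat p z₃ - padicValRat p t) := by
    rw [v1, v2, v3, v4]; ring
  rw [v5]
  push_cast
  have h4 : (3 : ZMod 3) = 0 := rfl
  rw [h4, zero_mul, add_zero]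

theorem vb_Tpt (p : ℕ) [Fact p.Prime] {n t N : ℚ} (hn : n ≠ 0) (h4n : 4 * n ≠ 0) (ht : t ≠ 0)
    (hN : N = n * t ^ 3) :
    vb p h4n (Tpt h4n) = ((padicValRat p N : ℤ) : ZMod 3) := by
  unfold Tpt
  rw [vb_apply, bval_some, if_neg (by
    intro h0
    have : 2 * (4 * n) = 0 := by linear_combination h0
    exact (mul_ne_zero two_ne_zero h4n) this)]
  have : 4 * n + 4 * n = 2 ^ 3 * n := by ring
  rw [this, hN, padicValRat.mul (by norm_num) hn, padicValRat.pow _,
    padicValRat.mul hn (pow_ne_zero 3 ht), padicValRat.pow _]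
  push_cast
  have h4 : (3 : ZMod 3) = 0 := rfl
  rw [h4, zero_mul, zero_mul, zero_add, add_zero]

/-- No point of order three besides `T`, from one valuation of `n`. -/
theorem no_cube {n t N : ℚ} (p : ℕ) [Fact p.Prime] (hn : n ≠ 0) (ht : t ≠ 0)
    (hN : N = n * t ^ 3) (hv : ((padicValRat p N : ℤ) : ZMod 3) ≠ 0) (x : ℚ) :
    x ^ 3 ≠ -(4 * (4 * n) ^ 2) := by
  intro h
  have hx : x ≠ 0 := by
    rintro rfl
    have : (n : ℚ) ^ 2 = 0 := by linarith
    exact hn (pow_eq_zero_iff two_ne_zero |>.1 this)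
  apply hv
  have h2 : (-x * t ^ 2) ^ 3 = 4 ^ 3 * N ^ 2 := by
    rw [hN]; linear_combination (-t ^ 6) * h
  have h3 := congrArg (padicValRat p) h2
  have hN0 : N ≠ 0 := by rw [hN]; exact mul_ne_zero hn (pow_ne_zero 3 ht)
  rw [padicValRat.pow _,
    padicValRat.mul (by norm_num) (pow_ne_zero 2 hN0), padicValRat.pow _,
    padicValRat.pow _] at h3
  have h4 := congrArg (Int.cast : ℤ → ZMod 3) h3
  push_cast at h4
  have h5 : (3 : ZMod 3) = 0 := rfl
  rw [h5, zero_mul, zero_mul, zero_add] at h4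
  have h6 : (2 : ZMod 3) ≠ 0 := by decide
  exact (mul_eq_zero.1 h4.symm).resolve_left h6

end Pool.Agent.helper5.CT
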