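import Pool.Agent.helper5.CT.Beta

/-!
# The isogeny of degree three from `y^2 = x^3 + a^2` to `y^2 = x^3 - 27 a^2`
-/

namespace Pool.Agent.helper5.CT

open WeierstrassCurve WeierstrassCurve.Affine H48.CN

variable {K : Type*} [Field K] [DecidableEq K]

/-- The target curve `y^2 = x^3 - 27 a^2`. -/
abbrev Cb (a : K) : WeierstrassCurve.Affine K := Wc 0 0 (-27 * a ^ 2)

omit [DecidableEq K] in
theorem Cb_eqn {a x y : K} : (Cb a).Equation x y ↔ y ^ 2 = x ^ 3 - 27 * a ^ 2 := by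
  rw [eqn_iff]
  constructor <;> intro h <;> linear_combination h

/-- Three points on a line, with multiplicities, have sum zero. -/
theorem some_add_of_line {C : K} (two : (2 : K) ≠ 0) (three : (3 : K) ≠ 0)
    {x₁ y₁ x₂ y₂ x₃ y₃ l m : K}
    (h₁ : (Wc 0 0 C).Nonsingular x₁ y₁) (h₂ : (Wc 0 0 C).Nonsingular x₂ y₂)
    (h₃ : (Wc 0 0 C).Nonsingular x₃ y₃)
    (f1 : y₁ = l * x₁ + m) (f2 : y₂ = l * x₂ + m) (f3 : y₃ = -(l * x₃ + m))
    (s1 : x₁ + x₂ + x₃ = l ^ 2) (s2 : x₁ * x₂ + x₁ * x₃ + x₂ * x₃ = -2 * l * m)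
    (s3 : x₁ * x₂ * x₃ = m ^ 2 - C) :
    Point.some x₁ y₁ h₁ + Point.some x₂ y₂ h₂ = Point.some x₃ y₃ h₃ := by
  have hl : l * (y₁ + y₂) = x₁ ^ 2 + x₁ * x₂ + x₂ ^ 2 := by
    rw [f1, f2]; linear_combination (x₁ + x₂) * (-s1) + s2 + 0 * s3
  have hno : ¬(x₁ = x₂ ∧ y₁ = -y₂) := by
    rintro ⟨hx, hy⟩
    have h0 : 2 * y₁ = 0 := by rw [f1, f2, hx] at hy; rw [f1, hx]; linear_combination hy
    have hy1 : y₁ = 0 := (mul_eq_zero.1 h0).resolve_left two
    have hy2 : y₂ = 0 := by linear_combination hy - hy1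
    have hx1 : x₁ = 0 := by
      rw [hy1, hy2, ← hx] at hl
      have : 3 * x₁ ^ 2 = 0 := by linear_combination -hl
      exact pow_eq_zero_iff two_ne_zero |>.1 ((mul_eq_zero.1 this).resolve_left three)
    have := (WeierstrassCurve.Affine.nonsingular_iff _ _).1 h₁
    simp only [Wc] at this
    rcases this.2 with h | h
    · apply h; rw [hx1]; ring
    · apply h; rw [hy1]; ring
  obtain ⟨L, X, Y, hXY, hP, r1, r2, r3, r4⟩ := add_rel h₁ h₂ hno
  have hLl : L = l := by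
    by_contra hne
    have hne' : L - l ≠ 0 := sub_ne_zero.2 hne
    apply hno
    constructor
    · have : (L - l) * (x₁ - x₂) = 0 := by rw [f1, f2] at r1; linear_combination r1
      exact sub_eq_zero.1 ((mul_eq_zero.1 this).resolve_left hne')
    · have : (L - l) * (y₁ + y₂) = 0 := by linear_combination r2 - hl
      exact eq_neg_of_add_eq_zero_left ((mul_eq_zero.1 this).resolve_left hne')
  have hX : X = x₃ := by rw [r3, hLl]; linear_combination -s1
  have hY : Y = y₃ := by rw [r4, hX, hLl, f3, f1]; ring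
  rw [hP]
  congr 1

/-- Image of an affine point under the isogeny. -/
def phiX (a x : K) : K := x + 4 * a ^ 2 / x ^ 2

/-- Image of an affine point under the isogeny. -/
def phiY (a x y : K) : K := y * (1 - 8 * a ^ 2 / x ^ 3)

omit [DecidableEq K] in
theorem phi_nonsing {a x y : K} (two : (2 : K) ≠ 0) (three : (3 : K) ≠ 0) (ha : a ≠ 0)
    (h : (Ca a).Nonsingular x y) (hx : x ≠ 0) : (Cb a).Nonsingular (phiX a x) (phiY a x y) := by
  have e := Ca_eqn.1 h.1
  have e2 : phiY a x y ^ 2 = phiX a x ^ 3 - 27 * a ^ 2 := by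
    unfold phiX phiY
    have : (y * (1 - 8 * a ^ 2 / x ^ 3)) ^ 2 = y ^ 2 * (1 - 8 * a ^ 2 / x ^ 3) ^ 2 := by ring
    rw [this, e]
    field_simp
    ring
  apply nonsing_of
  · rw [e2]; ring
  · by_cases hy : phiY a x y = 0
    · right
      intro h0
      have h1 : 3 * phiX a x ^ 2 = 0 := by linear_combination h0
      have h2 : phiX a x = 0 :=
        pow_eq_zero_iff two_ne_zero |>.1 ((mul_eq_zero.1 h1).resolve_left three)
      rw [hy, h2] at e2
      have h3 : 3 ^ 3 * a ^ 2 = 0 := by linear_combination e2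
      exact (mul_ne_zero (pow_ne_zero 3 three) (pow_ne_zero 2 ha)) h3
    · left; exact mul_ne_zero two hy

/-- The isogeny on points. -/
def phiFun {a : K} (two : (2 : K) ≠ 0) (three : (3 : K) ≠ 0) (ha : a ≠ 0) :
    (Ca a).Point → (Cb a).Point
  | .zero => 0
  | .some x _ h => if hx : x = 0 then 0 else .some _ _ (phi_nonsing two three ha h hx)

variable {a : K} (two : (2 : K) ≠ 0) (three : (3 : K) ≠ 0) (ha : a ≠ 0)

theorem phiFun_zero : phiFun two three ha (0 : (Ca a).Point) = 0 := rfl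

theorem phiFun_some_zero {x y : K} (h : (Ca a).Nonsingular x y) (hx : x = 0) :
    phiFun two three ha (Point.some x y h) = 0 := by
  simp [phiFun, hx]

theorem phiFun_some {x y : K} (h : (Ca a).Nonsingular x y) (hx : x ≠ 0) :
    phiFun two three ha (Point.some x y h) =
      Point.some _ _ (phi_nonsing two three ha h hx) := by
  simp [phiFun, hx]

theorem phiFun_neg (P : (Ca a).Point) :
    phiFun two three ha (-P) = -phiFun two three ha P := by
  rcases P with _ | ⟨x, y, h⟩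
  · rfl
  · by_cases hx : x = 0
    · rw [Point.neg_some, phiFun_some_zero two three ha _ hx, phiFun_some_zero two three ha _ hx,
        neg_zero]
    · rw [Point.neg_some, phiFun_some two three ha _ hx, phiFun_some two three ha _ hx,
        Point.neg_some]
      congr 1
      rw [negY_eq, negY_eq]
      unfold phiY; ring

/-- Adding a point with `x = 0` does not change the image. -/
theorem phiFun_add_torsion {x₁ y₁ : K} (h₁ : (Ca a).Nonsingular x₁ y₁) (hx1 : x₁ = 0)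
    (Q : (Ca a).Point) :
    phiFun two three ha (Point.some x₁ y₁ h₁ + Q) = phiFun two three ha Q := by
  rcases Q with _ | ⟨x₂, y₂, h₂⟩
  · change phiFun two three ha (Point.some x₁ y₁ h₁ + (0 : (Ca a).Point)) = _
    rw [add_zero, phiFun_some_zero two three ha _ hx1]
    rfl
  by_cases h : x₁ = x₂ ∧ y₁ = -y₂
  · have : (Point.some x₁ y₁ h₁ : (Ca a).Point) + Point.some x₂ y₂ h₂ = 0 :=
      Point.add_of_Y_eq h.1 (by rw [negY_eq]; exact h.2)
    rw [this, phiFun_zero, phiFun_some_zero two three ha _ (h.1.symm.trans hx1)]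
  obtain ⟨l, m, x₃, y₃, h₃, hP, f1, f2, f3, s1, s2, s3⟩ := add_rel' h₁ h₂ h
  rw [hP]
  subst hx1
  have hm : m = y₁ := by rw [f1]; ring
  have hma : m ^ 2 = a ^ 2 := by linear_combination -s3
  have hm0 : m ≠ 0 := by
    intro h0
    rw [h0] at hma
    exact pow_ne_zero 2 ha (by rw [← hma]; ring)
  by_cases hx2 : x₂ = 0
  · have hl : l = 0 := by
      rw [hx2] at s2
      have : l * (2 * m) = 0 := by linear_combination s2
      exact (mul_eq_zero.1 this).resolve_right (mul_ne_zero two hm0)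
    have hx3 : x₃ = 0 := by rw [hx2, hl] at s1; linear_combination s1
    rw [phiFun_some_zero two three ha _ hx3, phiFun_some_zero two three ha _ hx2]
  · have q2 : x₂ * x₃ = -2 * l * m := by linear_combination s2
    have hl : l ≠ 0 := by
      intro hl
      rw [hl] at q2
      have : x₃ = 0 := (mul_eq_zero.1 (by linear_combination q2 : x₂ * x₃ = 0)).resolve_left hx2
      rw [this, hl] at s1
      exact hx2 (by linear_combination s1)
    have hx3 : x₃ ≠ 0 := by
      intro hx3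
      rw [hx3] at q2
      have : l * (2 * m) = 0 := by linear_combination q2
      exact mul_ne_zero hl (mul_ne_zero two hm0) this
    rw [phiFun_some two three ha _ hx3, phiFun_some two three ha _ hx2]
    have hmm : m = -(x₂ * x₃) / (2 * l) := by
      rw [eq_div_iff (mul_ne_zero two hl)]; linear_combination q2
    have hx3' : x₃ = l ^ 2 - x₂ := by linear_combination s1
    congr 1
    · unfold phiX
      rw [← hma, hmm]
      field_simp
      rw [hx3']
      ring
    · unfold phiY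
      rw [f3, f2, ← hma, hmm]
      field_simp
      rw [hx3']
      ring

theorem phiFun_add (P Q : (Ca a).Point) :
    phiFun two three ha (P + Q) = phiFun two three ha P + phiFun two three ha Q := by
  rcases P with _ | ⟨x₁, y₁, h₁⟩
  · change phiFun two three ha ((0 : (Ca a).Point) + Q) =
      phiFun two three ha (0 : (Ca a).Point) + _
    rw [zero_add, phiFun_zero, zero_add]
  by_cases hx1 : x₁ = 0
  · rw [phiFun_add_torsion two three ha h₁ hx1, phiFun_some_zero two three ha _ hx1, zero_add]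
  rcases Q with _ | ⟨x₂, y₂, h₂⟩
  · change phiFun two three ha (Point.some x₁ y₁ h₁ + (0 : (Ca a).Point)) =
      _ + phiFun two three ha (0 : (Ca a).Point)
    rw [add_zero, phiFun_zero, add_zero]
  by_cases hx2 : x₂ = 0
  · rw [add_comm, phiFun_add_torsion two three ha h₂ hx2, phiFun_some_zero two three ha h₂ hx2,
      add_zero]
  by_cases h : x₁ = x₂ ∧ y₁ = -y₂
  · have h12 : (Point.some x₁ y₁ h₁ : (Ca a).Point) + Point.some x₂ y₂ h₂ = 0 :=
      Point.add_of_Y_eq h.1 (by rw [negY_eq]; exact h.2)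
    have h3 : (Point.some x₁ y₁ h₁ : (Ca a).Point) = -Point.some x₂ y₂ h₂ :=
      eq_neg_of_add_eq_zero_left h12
    rw [h12, h3, phiFun_neg, phiFun_zero, neg_add_cancel]
  obtain ⟨l, m, x₃, y₃, h₃, hP, f1, f2, f3, s1, s2, s3⟩ := add_rel' h₁ h₂ h
  by_cases hx3 : x₃ = 0
  · have e1 : (Point.some x₁ y₁ h₁ : (Ca a).Point) =
        Point.some x₃ y₃ h₃ + -Point.some x₂ y₂ h₂ := by rw [← hP]; abel
    rw [hP, phiFun_some_zero two three ha _ hx3, e1, phiFun_add_torsion two three ha h₃ hx3,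
      phiFun_neg, neg_add_cancel]
  rw [hP, phiFun_some two three ha _ hx1, phiFun_some two three ha _ hx2,
    phiFun_some two three ha _ hx3]
  symm
  have hq : x₁ * x₂ * x₃ ≠ 0 := mul_ne_zero (mul_ne_zero hx1 hx2) hx3
  have hq' : m ^ 2 - a ^ 2 ≠ 0 := by rw [← s3]; exact hq
  have line : ∀ x : K, x ≠ 0 → (l * x + m) ^ 2 = x ^ 3 + a ^ 2 →
      (l * x + m) * (1 - 8 * a ^ 2 / x ^ 3) =
        l * (m ^ 2 + 3 * a ^ 2) / (m ^ 2 - a ^ 2) * (x + 4 * a ^ 2 / x ^ 2) +
        (m * (m ^ 2 - 9 * a ^ 2) - 4 * a ^ 2 * l ^ 3) / (m ^ 2 - a ^ 2) := by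
    intro x hx hc
    field_simp
    linear_combination (4 * a ^ 2 * (l * x - 2 * m)) * hc
  have c1 : (l * x₁ + m) ^ 2 = x₁ ^ 3 + a ^ 2 := by rw [← f1]; exact Ca_eqn.1 h₁.1
  have c2 : (l * x₂ + m) ^ 2 = x₂ ^ 3 + a ^ 2 := by rw [← f2]; exact Ca_eqn.1 h₂.1
  have c3 : (l * x₃ + m) ^ 2 = x₃ ^ 3 + a ^ 2 := by
    have := Ca_eqn.1 h₃.1
    rw [f3] at this
    linear_combination this
  refine some_add_of_line two three _ _ _ (l := l * (m ^ 2 + 3 * a ^ 2) / (m ^ 2 - a ^ 2))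
    (m := (m * (m ^ 2 - 9 * a ^ 2) - 4 * a ^ 2 * l ^ 3) / (m ^ 2 - a ^ 2)) ?_ ?_ ?_ ?_ ?_ ?_
  · unfold phiX phiY; rw [f1]; exact line x₁ hx1 c1
  · unfold phiX phiY; rw [f2]; exact line x₂ hx2 c2
  · unfold phiX phiY; rw [f3, ← line x₃ hx3 c3]; ring
  · have : phiX a x₁ + phiX a x₂ + phiX a x₃ = (x₁ + x₂ + x₃) +
        4 * a ^ 2 * ((x₁ * x₂ + x₁ * x₃ + x₂ * x₃) ^ 2 -
          2 * (x₁ + x₂ + x₃) * (x₁ * x₂ * x₃)) / (x₁ * x₂ * x₃) ^ 2 := by
      unfold phiX; field_simp; ring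
    rw [this, s1, s2, s3]
    field_simp
    ring
  · have : phiX a x₁ * phiX a x₂ + phiX a x₁ * phiX a x₃ + phiX a x₂ * phiX a x₃ =
        ((x₁ * x₂ + x₁ * x₃ + x₂ * x₃) * (x₁ * x₂ * x₃) ^ 2 + 4 * a ^ 2 * ((x₁ + x₂ + x₃) *
          ((x₁ * x₂ + x₁ * x₃ + x₂ * x₃) ^ 2 - 2 * (x₁ + x₂ + x₃) * (x₁ * x₂ * x₃)) -
          (x₁ * x₂ + x₁ * x₃ + x₂ * x₃) * (x₁ * x₂ * x₃)) + 16 * a ^ 4 * ((x₁ + x₂ + x₃) ^ 2 -
          2 * (x₁ * x₂ + x₁ * x₃ + x₂ * x₃))) / (x₁ * x₂ * x₃) ^ 2 := by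
      unfold phiX; field_simp; ring
    rw [this, s1, s2, s3]
    field_simp
    ring
  · have : phiX a x₁ * phiX a x₂ * phiX a x₃ =
        ((x₁ * x₂ * x₃) ^ 3 + 4 * a ^ 2 * ((x₁ * x₂ + x₁ * x₃ + x₂ * x₃) ^ 3 -
          3 * (x₁ + x₂ + x₃) * (x₁ * x₂ + x₁ * x₃ + x₂ * x₃) * (x₁ * x₂ * x₃) +
          3 * (x₁ * x₂ * x₃) ^ 2) + 16 * a ^ 4 * ((x₁ + x₂ + x₃) ^ 3 -
          3 * (x₁ + x₂ + x₃) * (x₁ * x₂ + x₁ * x₃ + x₂ * x₃) + 3 * (x₁ * x₂ * x₃)) +
          64 * a ^ 6) / (x₁ * x₂ * x₃) ^ 2 := by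
      unfold phiX; field_simp; ring
    rw [this, s1, s2, s3]
    field_simp
    ring

/-- The isogeny as a homomorphism. -/
def phi : (Ca a).Point →+ (Cb a).Point where
  toFun := phiFun two three ha
  map_zero' := rfl
  map_add' := phiFun_add two three ha

theorem phi_eq_zero {P : (Ca a).Point} (h : phi two three ha P = 0) :
    P = 0 ∨ ∃ (y : K) (h' : (Ca a).Nonsingular 0 y), P = Point.some 0 y h' := by
  rcases P with _ | ⟨x, y, hxy⟩
  · left; rfl
  · right
    by_cases hx : x = 0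
    · subst hx; exact ⟨y, hxy, rfl⟩
    · exfalso
      change phiFun two three ha (Point.some x y hxy) = 0 at h
      rw [phiFun_some two three ha _ hx] at h
      exact Point.some_ne_zero _ h

end Pool.Agent.helper5.CT
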