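import Pool.Agent.helper5.CT.Indep

/-!
# A one-parameter family of cubic twists with four independent points
-/

namespace Pool.Agent.helper5.CT

open WeierstrassCurve WeierstrassCurve.Affine H48.CN

section polys

/-- Factor. -/
def u0 (g : ℤ) : ℤ := g ^ 2 + 1
/-- Factor. -/
def u1 (g : ℤ) : ℤ := g ^ 2 + 6
/-- Factor. -/
def u2 (g : ℤ) : ℤ := 6 * g ^ 2 + 1
/-- Factor. -/
def u3 (g : ℤ) : ℤ := g ^ 4 + 4 * g ^ 2 + 2
/-- Factor. -/
def u4 (g : ℤ) : ℤ := 2 * g ^ 4 + 4 * g ^ 2 + 1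
/-- Factor. -/
def u5 (g : ℤ) : ℤ := g ^ 4 + 5 * g ^ 2 + 1
/-- Factor. -/
def u6 (g : ℤ) : ℤ := 2 * g ^ 4 + 9 * g ^ 2 + 2
/-- Factor. -/
def w1 (g : ℤ) : ℤ := 4 * g ^ 5 + 4 * g ^ 4 + 20 * g ^ 3 - 3 * g ^ 2 + 4 * g - 1
/-- Factor. -/
def w2 (g : ℤ) : ℤ := 4 * g ^ 5 - 4 * g ^ 4 + 20 * g ^ 3 + 3 * g ^ 2 + 4 * g + 1
/-- Factor. -/
def w3 (g : ℤ) : ℤ := g ^ 5 + 4 * g ^ 4 + 3 * g ^ 3 + 20 * g ^ 2 - 4 * g + 4
/-- Factor. -/
def w4 (g : ℤ) : ℤ := g ^ 5 - 4 * g ^ 4 + 3 * g ^ 3 - 20 * g ^ 2 - 4 * g - 4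

/-- The twisting parameter. -/
def N (g : ℤ) : ℤ := 14 * u0 g * u1 g * u2 g * u3 g * u4 g * u5 g * u6 g * w1 g * w2 g * w3 g * w4 g

/-- First coefficient of the equation of the `i`-th point. -/
def cA : Fin 4 → ℤ → ℤ
  | 0, g => 14 * u0 g * u5 g * u6 g
  | 1, g => -(u1 g * u4 g * w2 g * w4 g)
  | 2, _ => -1
  | 3, g => u1 g * u4 g * w1 g * w3 g

/-- Second coefficient. -/
def cB : Fin 4 → ℤ → ℤ
  | 0, g => -(u2 g * u4 g * w3 g * w4 g)
  | 1, g => 2 * u3 g * u5 g * w1 g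
  | 2, g => -(7 * u0 g * u2 g * u4 g * w3 g * w4 g)
  | 3, g => -(2 * u3 g * u5 g * w2 g)

/-- Third coefficient. -/
def cC : Fin 4 → ℤ → ℤ
  | 0, g => -(u1 g * u3 g * w1 g * w2 g)
  | 1, g => -(7 * u0 g * u2 g * u6 g * w3 g)
  | 2, g => 2 * u1 g * u3 g * u5 g * u6 g * w1 g * w2 g
  | 3, g => -(7 * u0 g * u2 g * u6 g * w4 g)

/-- First cube root. -/
def z1 : Fin 4 → ℤ → ℤ
  | 0, g => g ^ 2 - 1
  | 1, _ => 1
  | 2, g => 4 * g ^ 8 + 38 * g ^ 6 + 105 * g ^ 4 + 45 * g ^ 2 + 4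
  | 3, _ => 1

/-- Second cube root. -/
def z2 : Fin 4 → ℤ → ℤ
  | 0, _ => 1
  | 1, g => g - 2
  | 2, _ => 1
  | 3, g => g + 2

theorem rel (i : Fin 4) (g : ℤ) : cA i g * z1 i g ^ 3 + cB i g * z2 i g ^ 3 + cC i g * 1 ^ 3 = 0 := by
  fin_cases i <;> simp only [cA, cB, cC, z1, z2, u0, u1, u2, u3, u4, u5, u6, w1, w2, w3, w4] <;> ring

theorem prod (i : Fin 4) (g : ℤ) : cA i g * cB i g * cC i g = N g := by
  fin_cases i <;> simp only [cA, cB, cC, N] <;> ring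

end polys

/-- Exact valuation from a congruence. -/
theorem val_eq {p e : ℕ} [hp : Fact p.Prime] {a b M : ℤ} (h : a ≡ b [ZMOD M])
    (hM : (p : ℤ) ^ (e + 1) ∣ M) (h1 : (p : ℤ) ^ e ∣ b) (h2 : ¬ (p : ℤ) ^ (e + 1) ∣ b) :
    padicValRat p (a : ℚ) = e := by
  have hd : (p : ℤ) ^ (e + 1) ∣ b - a := hM.trans h.dvd
  have g1 : (p : ℤ) ^ e ∣ a := by
    have : (p : ℤ) ^ e ∣ b - a := (pow_dvd_pow _ (Nat.le_succ e)).trans hd
    have := dvd_sub h1 this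
    simpa using this
  have g2 : ¬ (p : ℤ) ^ (e + 1) ∣ a := by
    intro h3
    apply h2
    have := dvd_add hd h3
    simpa using this
  have ha : a ≠ 0 := by rintro rfl; exact g2 (dvd_zero _)
  rw [padicValRat.of_int]
  have l1 := ((padicValInt_dvd_iff (p := p) e a).1 g1).resolve_left ha
  have l2 : ¬ (e + 1 ≤ padicValInt p a) := fun h3 => g2 ((padicValInt_dvd_iff (p := p) _ a).2 (Or.inr h3))
  have : padicValInt p a = e := by omega
  rw [this]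

/-- The modulus. -/
def MM : ℤ := 6006 ^ 12

theorem congrN {g : ℤ} (h : g ≡ 36 [ZMOD MM]) : N g ≡ N 36 [ZMOD MM] := by
  unfold N u0 u1 u2 u3 u4 u5 u6 w1 w2 w3 w4; gcongr

theorem congrA {g : ℤ} (h : g ≡ 36 [ZMOD MM]) (i : Fin 4) : cA i g ≡ cA i 36 [ZMOD MM] := by
  fin_cases i <;> simp only [cA, u0, u1, u4, u5, u6, w1, w2, w3, w4] <;> gcongr

theorem congrB {g : ℤ} (h : g ≡ 36 [ZMOD MM]) (i : Fin 4) : cB i g ≡ cB i 36 [ZMOD MM] := by
  fin_cases i <;> simp only [cB, u0, u2, u3, u4, u5, w1, w2, w3, w4] <;> gcongr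

/-- The five primes. -/
def pr : Fin 5 → ℕ
  | 0 => 2 | 1 => 3 | 2 => 7 | 3 => 11 | 4 => 13

theorem pr_prime (j : Fin 5) : (pr j).Prime := by
  fin_cases j <;> simp only [pr] <;> norm_num

instance (j : Fin 5) : Fact (pr j).Prime := ⟨pr_prime j⟩

/-- Valuations of the first coefficients. -/
def vA : Fin 5 → Fin 4 → ℕ := ![![2, 3, 0, 3], ![0, 1, 0, 1], ![2, 4, 0, 4], ![0, 0, 0, 0], ![0, 1, 0, 0]]

/-- Valuations of the second coefficients. -/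
def vB : Fin 5 → Fin 4 → ℕ := ![![4, 2, 4, 2], ![0, 0, 0, 0], ![4, 3, 5, 3], ![1, 0, 1, 0], ![0, 0, 0, 1]]

/-- Valuations of `N`. -/
def vN : Fin 5 → ℕ := ![8, 1, 10, 1, 1]

theorem valA {g : ℤ} (h : g ≡ 36 [ZMOD MM]) (j : Fin 5) (i : Fin 4) :
    padicValRat (pr j) (cA i g : ℚ) = vA j i := by
  apply val_eq (congrA h i)
  · fin_cases j <;> fin_cases i <;> decide
  · fin_cases j <;> fin_cases i <;> decide
  · fin_cases j <;> fin_cases i <;> decide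

theorem valB {g : ℤ} (h : g ≡ 36 [ZMOD MM]) (j : Fin 5) (i : Fin 4) :
    padicValRat (pr j) (cB i g : ℚ) = vB j i := by
  apply val_eq (congrB h i)
  · fin_cases j <;> fin_cases i <;> decide
  · fin_cases j <;> fin_cases i <;> decide
  · fin_cases j <;> fin_cases i <;> decide

theorem valN {g : ℤ} (h : g ≡ 36 [ZMOD MM]) (j : Fin 5) :
    padicValRat (pr j) (N g : ℚ) = vN j := by
  apply val_eq (congrN h)
  · fin_cases j <;> decide
  · fin_cases j <;> decide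
  · fin_cases j <;> decide

/-- The matrix of the descent classes. -/
def Mx (j : Fin 5) (i : Fin 4) : ZMod 3 := (((vB j i : ℤ) - (vA j i : ℤ) : ℤ) : ZMod 3)

/-- The classes of the torsion point. -/
def tx (j : Fin 5) : ZMod 3 := ((vN j : ℤ) : ZMod 3)

theorem mat (c : Fin 4 → ZMod 3) (k : ZMod 3) (h : ∀ j, ∑ i, c i * Mx j i = k * tx j) :
    c = 0 ∧ k = 0 := by
  have h0 := h 0
  have h1 := h 1
  have h2 := h 2
  have h3 := h 3
  have h4 := h 4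
  rw [Fin.sum_univ_four] at h0 h1 h2 h3 h4
  have key : ∀ a b d e k : ZMod 3,
      a * Mx 0 0 + b * Mx 0 1 + d * Mx 0 2 + e * Mx 0 3 = k * tx 0 →
      a * Mx 1 0 + b * Mx 1 1 + d * Mx 1 2 + e * Mx 1 3 = k * tx 1 →
      a * Mx 2 0 + b * Mx 2 1 + d * Mx 2 2 + e * Mx 2 3 = k * tx 2 →
      a * Mx 3 0 + b * Mx 3 1 + d * Mx 3 2 + e * Mx 3 3 = k * tx 3 →
      a * Mx 4 0 + b * Mx 4 1 + d * Mx 4 2 + e * Mx 4 3 = k * tx 4 →
      a = 0 ∧ b = 0 ∧ d = 0 ∧ e = 0 ∧ k = 0 := by decide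
  obtain ⟨q0, q1, q2, q3, q4⟩ := key _ _ _ _ _ h0 h1 h2 h3 h4
  refine ⟨?_, q4⟩
  funext i
  fin_cases i
  · exact q0
  · exact q1
  · exact q2
  · exact q3

theorem z_ne {g : ℤ} (h : g ≡ 36 [ZMOD MM]) (i : Fin 4) : z1 i g ≠ 0 ∧ z2 i g ≠ 0 := by
  have h11 : g ≡ 36 [ZMOD 11] := h.of_dvd (by decide)
  have hg : g % 11 = 3 := h11
  have e1 : g ≠ 1 := by omega
  have e2 : g ≠ -1 := by omega
  have e3 : g - 2 ≠ 0 := by omega
  have e4 : g + 2 ≠ 0 := by omega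
  fin_cases i <;> simp only [z1, z2]
  · refine ⟨?_, one_ne_zero⟩
    intro h0
    have : (g - 1) * (g + 1) = 0 := by linear_combination h0
    rcases mul_eq_zero.1 this with h1 | h1
    · exact e1 (by linear_combination h1)
    · exact e2 (by linear_combination h1)
  · exact ⟨one_ne_zero, e3⟩
  · refine ⟨?_, one_ne_zero⟩
    positivity
  · exact ⟨one_ne_zero, e4⟩

theorem four_points {g : ℤ} (h : g ≡ 36 [ZMOD MM]) {n t : ℚ} (hn : n ≠ 0) (ht : t ≠ 0)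
    (hN : (N g : ℚ) = n * t ^ 3) :
    ∃ P : Fin 4 → (Cb (4 * n)).Point, LinearIndependent ℤ P := by
  have h4n : 4 * n ≠ 0 := mul_ne_zero (by norm_num) hn
  have ex : ∀ i : Fin 4, ∃ P : (Ca (4 * n)).Point, ∀ (p : ℕ) [Fact p.Prime],
      vb p h4n P = ((padicValRat p (cB i g : ℚ) - padicValRat p (cA i g : ℚ) : ℤ) : ZMod 3) := by
    intro i
    obtain ⟨hz1, hz2⟩ := z_ne h i
    refine exists_pt (C := (cC i g : ℚ)) (z₁ := (z1 i g : ℚ)) (z₂ := (z2 i g : ℚ)) (z₃ := 1) hn h4n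
      ht (by exact_mod_cast hz1) (by exact_mod_cast hz2) one_ne_zero ?_ ?_
    · exact_mod_cast rel i g
    · rw [← hN]; exact_mod_cast prod i g
  choose P hP using ex
  have two : (2 : ℚ) ≠ 0 := two_ne_zero
  have three : (3 : ℚ) ≠ 0 := three_ne_zero
  refine ⟨fun i => phi two three h4n (P i), ?_⟩
  rw [Fintype.linearIndependent_iff]
  intro c hc i
  have h0 : phi two three h4n (∑ i, c i • P i) = 0 := by
    rw [map_sum, ← hc]
    refine Finset.sum_congr rfl fun i _ => ?_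
    rw [map_zsmul]
  refine abs_indep P (fun j => vb (pr j) h4n) Mx tx ?_ ?_ mat (Tpt_ne h4n) ?_ c ?_ i
  · intro j i
    change vb (pr j) h4n (P i) = _
    rw [hP i (pr j), valA h j i, valB h j i]
    rfl
  · intro j
    change vb (pr j) h4n _ = _
    rw [vb_Tpt (pr j) hn h4n ht hN, valN h j]
    rfl
  · apply torsion h4n
    intro x
    refine no_cube (pr 1) hn ht hN ?_ x
    rw [valN h 1]
    decide
  · rcases phi_eq_zero two three h4n h0 with h1 | ⟨y, h', h1⟩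
    · left; exact h1
    · right; rw [h1]; exact xzero_cases h4n h'

/-- The cube-free part of a nonzero integer. -/
theorem cubefree_part {N : ℤ} (hN : N ≠ 0) : ∃ (n : ℕ) (t : ℚ), 0 < n ∧ t ≠ 0 ∧
    (N : ℚ) = n * t ^ 3 ∧ ∀ d : ℕ, d ^ 3 ∣ n → d = 1 := by
  classical
  have hex : ∃ n : ℕ, 0 < n ∧ ∃ t : ℚ, t ≠ 0 ∧ (N : ℚ) = n * t ^ 3 := by
    refine ⟨N.natAbs, Int.natAbs_pos.2 hN, ?_⟩
    rcases Int.natAbs_eq N with h | h
    · refine ⟨1, one_ne_zero, ?_⟩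
      have : (N : ℚ) = ((N.natAbs : ℤ) : ℚ) := by rw [← h]
      rw [this, Int.cast_natCast]; ring
    · refine ⟨-1, by norm_num, ?_⟩
      have : (N : ℚ) = ((-(N.natAbs : ℤ) : ℤ) : ℚ) := by rw [← h]
      rw [this, Int.cast_neg, Int.cast_natCast]; ring
  obtain ⟨hpos, t, ht, he⟩ := Nat.find_spec hex
  refine ⟨Nat.find hex, t, hpos, ht, he, ?_⟩
  intro d hd
  obtain ⟨k, hk⟩ := hd
  by_contra hd1
  have hk0 : 0 < k := by
    rcases Nat.eq_zero_or_pos k with h0 | h0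
    · rw [h0, mul_zero] at hk; omega
    · exact h0
  have hd0 : d ≠ 0 := by
    rintro rfl
    rw [hk] at hpos; simp at hpos
  have hd2 : 2 ≤ d := by omega
  have hlt : k < Nat.find hex := by
    rw [hk]
    have : 2 ^ 3 ≤ d ^ 3 := Nat.pow_le_pow_left hd2 3
    nlinarith
  apply Nat.find_min hex hlt
  refine ⟨hk0, d * t, mul_ne_zero (by exact_mod_cast hd0) ht, ?_⟩
  rw [he, hk]; push_cast; ring

/-- Values of the other factors at a root of `g^2 + 1`. -/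
theorem cofactor {R : Type*} [CommRing R] {g : R} (h : g ^ 2 + 1 = 0) :
    14 * (g ^ 2 + 6) * (6 * g ^ 2 + 1) * (g ^ 4 + 4 * g ^ 2 + 2) * (2 * g ^ 4 + 4 * g ^ 2 + 1) *
      (g ^ 4 + 5 * g ^ 2 + 1) * (2 * g ^ 4 + 9 * g ^ 2 + 2) *
      (4 * g ^ 5 + 4 * g ^ 4 + 20 * g ^ 3 - 3 * g ^ 2 + 4 * g - 1) *
      (4 * g ^ 5 - 4 * g ^ 4 + 20 * g ^ 3 + 3 * g ^ 2 + 4 * g + 1) *
      (g ^ 5 + 4 * g ^ 4 + 3 * g ^ 3 + 20 * g ^ 2 - 4 * g + 4) *
      (g ^ 5 - 4 * g ^ 4 + 3 * g ^ 3 - 20 * g ^ 2 - 4 * g - 4) = -170100000 := by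
  have h2 : g ^ 2 = -1 := by linear_combination h
  have h3 : g ^ 3 = -g := by linear_combination g * h
  have h4 : g ^ 4 = 1 := by linear_combination (g ^ 2 - 1) * h
  have h5 : g ^ 5 = g := by linear_combination (g ^ 3 - g) * h
  rw [h5, h4, h3, h2]
  linear_combination (14 * 5 * (-5) * (-1) * (-1) * (-3) * (-5)) *
    ((-12 * g + 6) * (-12 * g - 6) * 36 + 36 * (-180)) * h + 102060000 * h

theorem exists_g {l : ℕ} [hl : Fact l.Prime] (h13 : 13 < l) (h4 : l % 4 = 1) :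
    ∃ g : ℤ, g ≡ 36 [ZMOD MM] ∧ padicValRat l (N g : ℚ) = 1 := by
  have hM : (MM : ZMod l) ≠ 0 := by
    have : (MM : ZMod l) = ((6006 : ℕ) : ZMod l) ^ 12 := by
      have h0 : MM = ((6006 : ℕ) : ℤ) ^ 12 := by decide
      rw [h0, Int.cast_pow, Int.cast_natCast]
    rw [this]
    apply pow_ne_zero
    rw [Ne, ZMod.natCast_eq_zero_iff]
    intro hd
    have e : 6006 = 2 * 3 * 7 * 11 * 13 := by norm_num
    rw [e] at hd
    have hp := hl.out
    rw [hp.dvd_mul, hp.dvd_mul, hp.dvd_mul, hp.dvd_mul] at hd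
    have le : ∀ m : ℕ, 0 < m → m ≤ 13 → ¬ l ∣ m := fun m h0 h1 h2 => by
      have := Nat.le_of_dvd h0 h2; omega
    rcases hd with (((hd | hd) | hd) | hd) | hd <;>
      exact le _ (by norm_num) (by norm_num) hd
  obtain ⟨r, hr⟩ := (ZMod.exists_sq_eq_neg_one_iff (p := l)).2 (by omega)
  have hr2 : r ^ 2 + 1 = 0 := by rw [pow_two, ← hr]; ring
  -- a first solution modulo `l`
  obtain ⟨k, hk⟩ := ZMod.intCast_surjective ((r - 36) / (MM : ZMod l))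
  have hg0 : ((36 + MM * k : ℤ) : ZMod l) = r := by
    push_cast; rw [hk]; field_simp; ring
  -- not a solution modulo `l ^ 2`
  obtain ⟨g, hg1, hg2, hg3⟩ : ∃ g : ℤ, g ≡ 36 [ZMOD MM] ∧ (g : ZMod l) = r ∧
      ¬ (l : ℤ) ^ 2 ∣ g ^ 2 + 1 := by
    by_cases hd : (l : ℤ) ^ 2 ∣ (36 + MM * k) ^ 2 + 1
    · refine ⟨36 + MM * k + MM * l, ?_, ?_, ?_⟩
      · apply Int.ModEq.symm
        rw [Int.modEq_iff_dvd]
        exact ⟨k + l, by ring⟩
      · push_cast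
        push_cast at hg0
        rw [hg0]; simp
      · intro hd2
        have h5 : (l : ℤ) ^ 2 ∣ l * (2 * MM * (36 + MM * k)) := by
          have h6 := dvd_sub hd2 hd
          have h7 : (l : ℤ) ^ 2 ∣ MM ^ 2 * l ^ 2 := Dvd.intro_left _ rfl
          have h8 := dvd_sub h6 h7
          have e : (36 + MM * k + MM * l) ^ 2 + 1 - ((36 + MM * k) ^ 2 + 1) - MM ^ 2 * l ^ 2 =
              l * (2 * MM * (36 + MM * k)) := by ring
          rwa [e] at h8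
        have hl0 : (l : ℤ) ≠ 0 := by exact_mod_cast hl.out.ne_zero
        have h9 : (l : ℤ) ∣ 2 * MM * (36 + MM * k) := by
          rw [pow_two] at h5
          exact (mul_dvd_mul_iff_left hl0).1 h5
        have h10 : ((2 * MM * (36 + MM * k) : ℤ) : ZMod l) = 0 :=
          (ZMod.intCast_zmod_eq_zero_iff_dvd _ l).2 h9
        rw [Int.cast_mul, hg0, Int.cast_mul] at h10
        have hr0 : r ≠ 0 := by
          rintro rfl
          rw [zero_pow two_ne_zero, zero_add] at hr2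
          exact one_ne_zero hr2
        have h2 : ((2 : ℤ) : ZMod l) ≠ 0 := by
          intro h0
          have := (ZMod.intCast_zmod_eq_zero_iff_dvd 2 l).1 h0
          have := Int.le_of_dvd (by norm_num) this
          omega
        exact mul_ne_zero (mul_ne_zero h2 hM) hr0 h10
    · refine ⟨36 + MM * k, ?_, hg0, hd⟩
      apply Int.ModEq.symm
      rw [Int.modEq_iff_dvd]
      exact ⟨k, by ring⟩
  refine ⟨g, hg1, ?_⟩
  -- the cofactor
  obtain ⟨S, hS⟩ : ∃ S : ℤ, S = 14 * (g ^ 2 + 6) * (6 * g ^ 2 + 1) * (g ^ 4 + 4 * g ^ 2 + 2) *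
      (2 * g ^ 4 + 4 * g ^ 2 + 1) *
      (g ^ 4 + 5 * g ^ 2 + 1) * (2 * g ^ 4 + 9 * g ^ 2 + 2) *
      (4 * g ^ 5 + 4 * g ^ 4 + 20 * g ^ 3 - 3 * g ^ 2 + 4 * g - 1) *
      (4 * g ^ 5 - 4 * g ^ 4 + 20 * g ^ 3 + 3 * g ^ 2 + 4 * g + 1) *
      (g ^ 5 + 4 * g ^ 4 + 3 * g ^ 3 + 20 * g ^ 2 - 4 * g + 4) *
      (g ^ 5 - 4 * g ^ 4 + 3 * g ^ 3 - 20 * g ^ 2 - 4 * g - 4) := ⟨_, rfl⟩
  have hN : N g = (g ^ 2 + 1) * S := by
    rw [hS]; simp only [N, u0, u1, u2, u3, u4, u5, u6, w1, w2, w3, w4]; ring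
  have hSl : ¬ (l : ℤ) ∣ S := by
    intro hd
    have h0 := (ZMod.intCast_zmod_eq_zero_iff_dvd S l).2 hd
    have hgr : (g : ZMod l) ^ 2 + 1 = 0 := by rw [hg2]; exact hr2
    have h1 := cofactor hgr
    rw [hS] at h0
    push_cast at h0
    rw [h0] at h1
    have h2 : ((170100000 : ℕ) : ZMod l) = 0 := by push_cast; linear_combination h1
    rw [ZMod.natCast_eq_zero_iff] at h2
    have e : 170100000 = 2 ^ 5 * 3 ^ 5 * 5 ^ 5 * 7 := by norm_num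
    rw [e] at h2
    have hp := hl.out
    rw [hp.dvd_mul, hp.dvd_mul, hp.dvd_mul] at h2
    have le : ∀ m : ℕ, 0 < m → m ≤ 13 → ¬ l ∣ m := fun m h0 h1 h2 => by
      have := Nat.le_of_dvd h0 h2; omega
    rcases h2 with ((hd | hd) | hd) | hd
    · exact le 2 (by norm_num) (by norm_num) (hp.dvd_of_dvd_pow hd)
    · exact le 3 (by norm_num) (by norm_num) (hp.dvd_of_dvd_pow hd)
    · exact le 5 (by norm_num) (by norm_num) (hp.dvd_of_dvd_pow hd)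
    · exact le 7 (by norm_num) (by norm_num) hd
  have hg4 : (l : ℤ) ∣ g ^ 2 + 1 := by
    rw [← ZMod.intCast_zmod_eq_zero_iff_dvd]
    push_cast
    rw [hg2]; exact hr2
  have hlp : Prime (l : ℤ) := Nat.prime_iff_prime_int.1 hl.out
  have h1 : (l : ℤ) ^ 1 ∣ N g := by rw [hN, pow_one]; exact Dvd.dvd.mul_right hg4 _
  have h2 : ¬ (l : ℤ) ^ (1 + 1) ∣ N g := by
    rw [hN]
    intro hd
    obtain ⟨c, hc⟩ := hg4
    rw [hc, mul_assoc, pow_succ, pow_one] at hd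
    have hl0 : (l : ℤ) ≠ 0 := by exact_mod_cast hl.out.ne_zero
    have h3 := (mul_dvd_mul_iff_left hl0).1 hd
    rcases hlp.dvd_or_dvd h3 with h4 | h4
    · apply hg3
      obtain ⟨e, he⟩ := h4
      exact ⟨e, by rw [hc, he]; ring⟩
    · exact hSl h4
  have := val_eq (p := l) (e := 1) (Int.ModEq.refl (n := ((l : ℤ) ^ (1 + 1))) (N g)) dvd_rfl h1 h2
  rw [this]; norm_num

/-- Infinitely many cube-free `n` such that the curve has four independent points. -/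
theorem infinite_twists :
    {n : ℕ | (∀ d : ℕ, d ^ 3 ∣ n → d = 1) ∧
      ∃ P : Fin 4 → (Cb (4 * (n : ℚ))).Point, LinearIndependent ℤ P}.Infinite := by
  apply Set.infinite_of_forall_exists_gt
  intro B
  obtain ⟨l, hl, hB, hl4⟩ := Nat.exists_prime_gt_modEq_one (k := 4) (B + 13) (by norm_num)
  have : Fact l.Prime := ⟨hl⟩
  obtain ⟨g, hg, hv⟩ := exists_g (l := l) (by omega) hl4
  have hNg : N g ≠ 0 := by
    intro h0
    rw [h0] at hv
    simp at hv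
  obtain ⟨n, t, hn, ht, he, hcf⟩ := cubefree_part hNg
  have hn0 : (n : ℚ) ≠ 0 := by exact_mod_cast hn.ne'
  refine ⟨n, ⟨hcf, four_points hg hn0 ht he⟩, ?_⟩
  rw [he, padicValRat.mul hn0 (pow_ne_zero 3 ht), padicValRat.pow _] at hv
  have hne : padicValRat l (n : ℚ) ≠ 0 := by
    intro h0; rw [h0] at hv; push_cast at hv; omega
  have hdvd : l ∣ n := by
    by_contra hnd
    apply hne
    rw [padicValRat.of_nat, padicValNat.eq_zero_of_not_dvd hnd]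
    rfl
  have := Nat.le_of_dvd hn hdvd
  omega

end Pool.Agent.helper5.CT
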